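import Mathlib
import Pool.Agent.Y224.AZ.Stm

/-!
# A generic element is injective
-/

set_option autoImplicit false

namespace Pool.Agent.Y963.AZ

open Module

variable {K X : Type} [Field K] [AddCommGroup X] [Module K X] [FiniteDimensional K X]

theorem fin1 (W : Submodule K X) (a b : End K X) (ha : ∀ w ∈ W, a w = 0 → w = 0) :
    {t : K | ¬ ∀ w ∈ W, (a + t • b) w = 0 → w = 0}.Finite := by
  obtain ⟨g, hg⟩ := (a.domRestrict W).exists_leftInverse_of_injective (by
    rw [LinearMap.ker_eq_bot']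
    rintro ⟨w, hw⟩ h
    exact Subtype.ext (ha w hw h))
  set h : End K W := g ∘ₗ (b.domRestrict W) with hh
  refine ((Module.End.finite_hasEigenvalue h).image (fun μ => -μ⁻¹)).subset ?_
  intro t ht
  simp only [Set.mem_setOf_eq, not_forall] at ht
  obtain ⟨w, hw, h0, hne⟩ := ht
  have hne' : (⟨w, hw⟩ : W) ≠ 0 := fun h => hne (congrArg Subtype.val h)
  have e1 : g (a w) = (⟨w, hw⟩ : W) := LinearMap.congr_fun hg ⟨w, hw⟩
  have e2 : h ⟨w, hw⟩ = g (b w) := rfl
  have e3 : (⟨w, hw⟩ : W) + t • h ⟨w, hw⟩ = 0 := by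
    rw [e2, ← e1, ← map_smul, ← map_add]
    have : a w + t • b w = 0 := h0
    rw [this, map_zero]
  have ht0 : t ≠ 0 := by
    rintro rfl
    rw [zero_smul, add_zero] at e3
    exact hne' e3
  have e4 : h ⟨w, hw⟩ = (-t⁻¹) • (⟨w, hw⟩ : W) := by
    have h5 : t • h ⟨w, hw⟩ = -(⟨w, hw⟩ : W) := by
      rw [eq_neg_iff_add_eq_zero, add_comm]
      exact e3
    calc h ⟨w, hw⟩ = t⁻¹ • (t • h ⟨w, hw⟩) := by rw [smul_smul, inv_mul_cancel₀ ht0, one_smul]
      _ = _ := by rw [h5, smul_neg, neg_smul]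
  refine ⟨-t⁻¹, ?_, ?_⟩
  · exact Module.End.hasEigenvalue_of_hasEigenvector
      ⟨Module.End.mem_eigenspace_iff.2 e4, hne'⟩
  · simp only
    rw [inv_neg, inv_inv, neg_neg]

theorem fin2 (W : Submodule K X) (a b : End K X) (ha : ∀ w ∈ W, a w = 0 → w = 0) :
    {t : K | ¬ ∀ w ∈ W, (b + t • a) w = 0 → w = 0}.Finite := by
  obtain ⟨g, hg⟩ := (a.domRestrict W).exists_leftInverse_of_injective (by
    rw [LinearMap.ker_eq_bot']
    rintro ⟨w, hw⟩ h
    exact Subtype.ext (ha w hw h))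
  set h : End K W := g ∘ₗ (b.domRestrict W) with hh
  refine ((Module.End.finite_hasEigenvalue h).image (fun μ => -μ)).subset ?_
  intro t ht
  simp only [Set.mem_setOf_eq, not_forall] at ht
  obtain ⟨w, hw, h0, hne⟩ := ht
  have hne' : (⟨w, hw⟩ : W) ≠ 0 := fun h => hne (congrArg Subtype.val h)
  have e1 : g (a w) = (⟨w, hw⟩ : W) := LinearMap.congr_fun hg ⟨w, hw⟩
  have e2 : h ⟨w, hw⟩ = g (b w) := rfl
  have e3 : h ⟨w, hw⟩ + t • (⟨w, hw⟩ : W) = 0 := by
    rw [e2, ← e1, ← map_smul, ← map_add]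
    have : b w + t • a w = 0 := h0
    rw [this, map_zero]
  have e4 : h ⟨w, hw⟩ = (-t) • (⟨w, hw⟩ : W) := by
    rw [neg_smul, eq_neg_iff_add_eq_zero]
    exact e3
  refine ⟨-t, ?_, ?_⟩
  · exact Module.End.hasEigenvalue_of_hasEigenvector
      ⟨Module.End.mem_eigenspace_iff.2 e4, hne'⟩
  · simp only
    rw [neg_neg]

theorem t_inj : Pool.Agent.Y224.AZ.S_INJ := by
  classical
  intro K X _ _ _ _ _ A N ι _ p hp _ hcomm hinj
  have key : ∀ s : Finset ι, ∃ e ∈ N, ∀ i ∈ s, ∀ w ∈ A.map (p i), e w = 0 → w = 0 := by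
    intro s
    induction s using Finset.induction_on with
    | empty => exact ⟨0, N.zero_mem, by simp⟩
    | insert j s hj ih =>
      obtain ⟨e, heN, he⟩ := ih
      obtain ⟨ej, hejN, hej⟩ := hinj j
      have hej' : ∀ w ∈ A.map (p j), ej w = 0 → w = 0 := by
        rintro w ⟨v, hv, rfl⟩ h
        exact hej v hv h
      have hfin : ((⋃ i ∈ s, {t : K | ¬ ∀ w ∈ A.map (p i), (e + t • ej) w = 0 → w = 0}) ∪
          {t : K | ¬ ∀ w ∈ A.map (p j), (e + t • ej) w = 0 → w = 0}).Finite := by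
        refine Set.Finite.union ?_ (fin2 _ _ _ hej')
        exact Set.Finite.biUnion (Finset.finite_toSet s) fun i hi => fin1 _ _ _ (he i hi)
      haveI : Infinite K := CharZero.infinite K
      obtain ⟨t, ht⟩ := hfin.exists_notMem
      rw [Set.mem_union, not_or] at ht
      refine ⟨e + t • ej, N.add_mem heN (N.smul_mem _ hejN), ?_⟩
      intro i hi
      rcases Finset.mem_insert.1 hi with rfl | hi
      · have := ht.2
        simpa only [Set.mem_setOf_eq, not_not] using this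
      · have h1 := ht.1
        simp only [Set.mem_iUnion, not_exists] at h1
        have h2 := h1 i hi
        simpa only [Set.mem_setOf_eq, not_not] using h2
  obtain ⟨e, heN, he⟩ := key Finset.univ
  refine ⟨e, heN, fun v hv h0 => hp v fun i => ?_⟩
  refine he i (Finset.mem_univ i) _ ⟨v, hv, rfl⟩ ?_
  rw [hcomm i e heN v hv, h0, map_zero]

end Pool.Agent.Y963.AZ
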